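import Pool.Agent.N110.CC.K2

/-!
The canonical divisor of the finite images, for instance the quotients by finite groups, of varieties
with an abelian group of pseudo-automorphisms of maximal rank.
-/

set_option autoImplicit false

open FF Pool.Agent.W602.GT Pool.Agent.Y172 Pool.Agent.R887 Pool.Agent.N110 Pool.Agent.N110.CC

/-- Let `X'` be a normal projective variety of dimension `n ≥ 1`, with generic point `y'`. Let the
vectors `c' P` be the classes of the prime divisors in `N¹(X') = ℤ ^ (r + 1)`, `r ≥ 1` (if `X'` is
`ℚ`-factorial then `r + 1` is the Picard number of `X'`). Let `ℤ ^ r` act on `X'` by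
pseudo-automorphisms `f_v`, given by the automorphisms `φ v = f_v^*` of the function field, and
suppose that `f_v` has positive entropy (the first dynamical degree is greater than `1`) for all
`v ≠ 0`. So the rank of the group is the Picard number of `X'` minus one.

Let `X' → X` be a finite morphism onto a normal projective variety `X`, for instance `X = X'` or the
quotient by a finite group, given by the homomorphism `π` of the function fields (more generally, a
rational map which is a finite morphism in codimension one). The morphism has nothing to do with the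
maps `f_v`. Let `Δ` be a `ℚ`-divisor on `X` which is at most the branch divisor: the coefficient of
the prime divisor `P` is at most `1 - 1 / e` for all ramification indices `e` over `P`. This is true
for `Δ = 0`.

Then one of the following holds: (1) the divisor `K_X + Δ` is numerically trivial (it is
pseudo-effective and so is `- (K_X + Δ)`), and if the irregularity of `X` is zero then it is torsion:
`m (K_X + Δ) ~ 0` for some `m ≥ 1`; (2) `- (K_X + Δ)` is big and `K_X + Δ` is not
pseudo-effective. -/
theorem Pool.Agent.Results.MP_23b606_ag.MaximalRankQuotients.result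
    {K K' : Type} [Field K] [Algebra ℂ K] [Field K'] [Algebra ℂ K'] {N N' n r : ℕ}
    {y : Fin (N + 1) → K} {y' : Fin (N' + 1) → K'} (hy : NormalModel y) (hy' : NormalModel y')
    (hn : Algebra.trdeg ℂ K = n) (hn' : Algebra.trdeg ℂ K' = n) (hn0 : 0 < n) (hr : 0 < r)
    {c' : Place ℂ K' → Fin (r + 1) → ℤ} (hc' : PicardBasis y' c')
    {φ : (Fin r → ℤ) → (K' ≃ₐ[ℂ] K')} (hφ : ∀ u v, φ (u + v) = φ u * φ v)
    (hps : ∀ v, PseudoAut (φ v) y') (hent : ∀ v, v ≠ 0 → 1 < dynDegree (φ v) y' n 1)
    {π : K →ₐ[ℂ] K'} (hπ : FiniteMap π y y') {Δ : Place ℂ K → ℚ}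
    (hΔ : {P | IsPrimeDivisor y P ∧ Δ P ≠ 0}.Finite)
    (hbr : ∀ Q P e, IsPrimeDivisor y' Q → LiesOver π Q P e → 1 ≤ (e : ℚ) * (1 - Δ P)) :
    (LogPsef y n Δ ∧ LogAntiPsef y n Δ ∧ (IrregularityZero y → LogTorsion y n Δ)) ∨
      (LogAntiBig y n Δ ∧ ¬ LogPsef y n Δ) :=
  quotients hy hy' hn hn' hn0 hr hc' hφ hps hent hπ hΔ hbr
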