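import Pool.Agent.N115.JV.Wt

/-!
# One plurigenus decides

MP_23b606_ag, Q1. Let `a 0, ..., a N` be distinct constants and `m ≥ 2`. Let `X ⊆ P^N` be the
`n`-dimensional complete intersection of the points `x` for which there is a polynomial `H` of degree
at most `n` such that `x i ^ m = H (a i)` for all `i`, and let `Z` be a closed subvariety of `X`, of
any dimension `w ≥ 1`. We consider all the projective manifolds `W` which are dominated by `Z` with
degree at most `r`; no assumption is made on the branch loci or on the singularities of the map.

There is a number `T = T(n, r)` such that the single plurigenus `P_T(W)` is zero if and only if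
`κ(W) = -∞`, if and only if `K_W` is not pseudo-effective (that is, there is a Gauduchon metric of
positive total scalar curvature on `W`). `T` depends only on `n` and `r`, not on `N`, `m`, the
constants, `Z`, its dimension, the map and `W`.

The function-field language of the starting repository is used. For a projective manifold `W` with
function field `L`: `PlurigenusZero k L w T` says that `P_T(W) = 0`, `TCanonicalFinite k L w T` that
the `T`-canonical map of `W` is generically finite onto its image (`Pool/Agent/N115/JV/Wt.lean`),
`Psef k L w (fun _ => False)` that the canonical bundle is pseudo-effective,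
`KodGe k L w (fun _ => False) 0` that `κ(W) ≥ 0`, `Ruled k K` that `Z` is birational to the product
of a variety and the projective line (`Pool/Agent/W602/GT`), `IsUniruled k L w` that `W` is uniruled
(`Pool/Agent/W619/PQ/Defs.lean`); `coords k y` is the field of the ratios of the homogeneous
coordinates `y`. Parts were written by the helpers 115, 603, 849, 530, 966, 895, 157, 813.
-/

set_option autoImplicit false

open Pool.Agent.W602.GT (coords Ruled KodGe Psef GeneralType)
open Pool.Agent.W619.PQ (IsUniruled)
open Pool.Agent.N115.JV (PlurigenusZero TCanonicalFinite)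

namespace Pool.Agent.Results.MP_23b606_ag.OnePlurigenus

/-- `K` is the function field, and `y` the generic point in homogeneous coordinates, of a closed
subvariety `Z` of dimension `w` of the variety `X ⊆ P^N` of the points `x` for which there is a
polynomial of degree at most `n` whose values at the `a i` are the `x i ^ m`; the polynomial of the
generic point is `H`. -/
structure Subvariety {k : Type} [Field k] {N : ℕ} (a : Fin (N + 1) → k) (n m w : ℕ) (K : Type)
    [Field K] [Algebra k K] (y : Fin (N + 1) → K) (H : Polynomial K) : Prop where
  ne : y ≠ 0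
  gen : coords k y = ⊤
  dim : Algebra.trdeg k K = w
  deg : H.natDegree ≤ n
  val : ∀ i, y i ^ m = H.eval (algebraMap k K (a i))

/-- The weight `T(n, r) = (2 (r n + 1)!)!`. -/
def T (n r : ℕ) : ℕ := (2 * (r * n + 1).factorial).factorial

/-- Let `m ≥ 2`, `n, r ≥ 1`, `4 r n + (r n + r (r - 1) + 1) ^ 2 < 2 (N + 1)`, and let `Z` be a closed
subvariety of dimension `w ≥ 1` of `X`, with generic polynomial `H`.
**(1)** Assume that `H` is not divisible by the `m`-th power of a polynomial of degree at least `2`.
For every projective manifold `W` dominated by `Z` with degree at most `r` the following are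
equivalent: `P_T(W) = 0` for the number `T = T(n, r)`; `κ(W) = -∞`; `K_W` is not pseudo-effective;
`W` is uniruled; the `T`-canonical map of `W` is not generically finite onto its image; `Z` is ruled.
**(2)** If moreover `Z` is not ruled, then the `T`-canonical map is generically finite onto its image
for all projective manifolds `W` with generically finite dominant rational maps `Z' ⇢ Z` of any
degree and `Z' ⇢ W` of degree at most `r`.
**(3)** The assumption in (1) holds if `n < 2 m`, and if `n < w + 2 (m - 1)`: so it holds for all `Z`
of codimension less than `2 (m - 1)` in `X`. If `Z` is of codimension less than `m - 1` in `X`, for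
instance if `Z = X`, then `Z` is not ruled. -/
theorem result {k : Type} [Field k] [CharZero k] [IsAlgClosed k] {N n m r : ℕ} (hm : 2 ≤ m)
    (hn : 1 ≤ n) (hr : 1 ≤ r)
    (hN : 4 * (r * n) + (r * n + r * (r - 1) + 1) ^ 2 < 2 * (N + 1)) (a : Fin (N + 1) → k)
    (ha : Function.Injective a) {K : Type} [Field K] [Algebra k K] {w : ℕ} (hw : 1 ≤ w)
    {y : Fin (N + 1) → K} {H : Polynomial K} (hZ : Subvariety a n m w K y H) :
    ((∀ q : Polynomial K, 2 ≤ q.natDegree → ¬ q ^ m ∣ H) →
      (∀ (L : Type) [Field L] [Algebra k L] [Algebra L K] [IsScalarTower k L K]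
        [FiniteDimensional L K], Module.finrank L K ≤ r →
        [PlurigenusZero k L w (T n r), ¬ KodGe k L w (fun _ => False) 0,
          ¬ Psef k L w (fun _ => False), IsUniruled k L w, ¬ TCanonicalFinite k L w (T n r),
          Ruled k K].TFAE) ∧
      (¬ Ruled k K → ∀ (K' L : Type) [Field K'] [Field L] [Algebra k K'] [Algebra k L]
        [Algebra K K'] [Algebra L K'] [IsScalarTower k K K'] [IsScalarTower k L K']
        [FiniteDimensional K K'] [FiniteDimensional L K'], Module.finrank L K' ≤ r →
        TCanonicalFinite k L w (T n r))) ∧
    (n < 2 * m ∨ n < w + 2 * (m - 1) → ∀ q : Polynomial K, 2 ≤ q.natDegree → ¬ q ^ m ∣ H) ∧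
    (n < w + (m - 1) → ¬ Ruled k K) := by
  refine ⟨fun hfac => ⟨fun L _ _ _ _ _ hfr => ?_, fun hnr K' L _ _ _ _ _ _ _ _ _ _ hfr => ?_⟩,
    fun h q hq => ?_, fun h => ?_⟩
  · exact (Pool.Agent.N115.JV.below_weight hm hn hr hw hN ha hZ.dim hZ.ne hZ.gen hZ.deg hZ.val
      hfac hfr).1
  · exact Pool.Agent.N115.JV.corr_weight hm hn hr hw hN ha hZ.dim hZ.ne hZ.gen hZ.deg hZ.val
      hfac hnr hfr
  · exact Pool.Agent.N115.IM.no_factor hm hZ.dim hZ.ne hZ.gen hZ.deg hZ.val (d := 2)
      (h.imp (fun h => by omega) fun h => by omega) q hq
  · refine Pool.Agent.N115.IM.not_ruled hm hw ?_ ha hZ.dim hZ.ne hZ.gen hZ.deg hZ.val (Or.inr h)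
    have h1 : 1 * n ≤ r * n := Nat.mul_le_mul_right _ hr
    have h2 : (n + 1) ^ 2 ≤ (r * n + r * (r - 1) + 1) ^ 2 := Nat.pow_le_pow_left (by omega) 2
    omega

end Pool.Agent.Results.MP_23b606_ag.OnePlurigenus
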