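import Pool.Agent.N133.TB.TvI

/-!
MP_23b606_ag, Q1: varieties of Kodaira dimension `-∞` with tensors with values in the multiples of
the canonical divisor.

`K` is the function field of a smooth projective variety `X` of dimension `n ≥ 1` over `ℂ`;
`Place ℂ K` are the discrete valuations of `K`, and `IsDivisorial v n` says that `v` is a prime
divisor over `X`. `δ v` are multiplicities; `δ = 0` is the case of the variety `X` itself.
`IsPluriForm ℂ K n 1 η` (`Pool/Agent/W619/PQ/Defs.lean`): `η` is a rational `n`-form on `X`.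

`TensorTw n δ η a T` (`Pool/Agent/N133/TB/TvI.lean`), for a `K`-multilinear form `T` with `m`
arguments on the derivations of `K` over `ℂ` (rational vector fields): the tensor `T ⊗ η ^ a` is a
section of the orbifold: along each prime divisor `v` over `X`, if the vector fields `D j` and `B j`
are regular along `v` and, for `j` not in `S`, `D j` is tangent to `v`, then `T D * η B ^ a` has
order at least `- (|S| + a) δ v` along `v`. For `δ = 0` these are the elements `T ⊗ η ^ a` of the
space `H⁰ (X, (Ω¹) ^ ⊗ m ⊗ O (a K_X))`.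

`PairKod ℂ K n δ 0` (`Pool/Agent/Y174/BDefs.lean`): there is a nonzero pluricanonical form of some
weight `m ≥ 1` with poles of order at most `m δ v` along the prime divisors `v` over `X`; for
`δ = 0` it says that `κ (X) ≥ 0`. `pullPl φ v` (`Pool/Agent/TH466/QG/Equiv.lean`): the valuation
`f ↦ v (φ f)`. `pushD φ D`: the vector field `f ↦ φ (D (φ⁻¹ f))`, the image of `D` under the
birational automorphism of `X` which is given by the automorphism `φ` of `K`.
-/

set_option autoImplicit false

namespace Pool.Agent.Results.MP_23b606_ag.TwistedDistribution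

open FF Pool.Agent.Y174 Pool.Agent.TH466.QG Pool.Agent.N133.TB Pool.Agent.W619.PQ

/-- Let `X` be a smooth projective variety of dimension `n ≥ 1` with Kodaira dimension `-∞` such that
`H⁰ (X, (Ω¹) ^ ⊗ m ⊗ O (a K_X)) ≠ 0` for some `m` and `a` with `1 ≤ m ≤ M`, `0 ≤ a ≤ A` (or let
`(X, δ)` be an orbifold of Kodaira dimension `-∞` with such a twisted orbifold tensor). Then there is
a distribution `F ⊂ T_X`, `0 ≠ F ≠ T_X`, which is invariant under all birational automorphisms of `X`
(which preserve `δ`), such that the tensors of all these spaces, for `1 ≤ m ≤ M` and `0 ≤ a ≤ A`,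
vanish on `F`.

Hence, if one of the spaces `H⁰ (X, (Ω¹) ^ ⊗ m ⊗ O (a K_X))`, `m ≥ 1`, `a ≥ 0`, is not zero and the
group of birational automorphisms of `X` preserves no distribution `F`, `0 ≠ F ≠ T_X`, then
`κ (X) ≥ 0`. -/
theorem result {K : Type} [Field K] [Algebra ℂ K] (hess : Algebra.EssFiniteType ℂ K) {n : ℕ}
    (hn : Algebra.trdeg ℂ K = n) (hn1 : 1 ≤ n) (δ : Place ℂ K → ℝ) (hκ : ¬ PairKod ℂ K n δ 0)
    {η : (Fin n → Derivation ℂ K K) → K} (hη : IsPluriForm ℂ K n 1 η) (hη0 : η ≠ 0) (M A : ℕ)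
    (hM : ∃ m a : ℕ, 1 ≤ m ∧ m ≤ M ∧ a ≤ A ∧
      ∃ T : MultilinearMap K (fun _ : Fin m => Derivation ℂ K K) K,
        TensorTw n δ η a T ∧ T ≠ 0) :
    ∃ F : Submodule K (Derivation ℂ K K), F ≠ ⊥ ∧ F ≠ ⊤ ∧
      (∀ φ : K ≃ₐ[ℂ] K, (∀ v, δ (pullPl φ v) = δ v) → ∀ D, pushD φ D ∈ F ↔ D ∈ F) ∧
      ∀ m a : ℕ, 1 ≤ m → m ≤ M → a ≤ A →
        ∀ T : MultilinearMap K (fun _ : Fin m => Derivation ℂ K K) K,
          TensorTw n δ η a T → ∀ D : Fin m → Derivation ℂ K K, (∀ j, D j ∈ F) → T D = 0 :=
  tv_inv hess hn hn1 δ hκ hη hη0 M A hM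

end Pool.Agent.Results.MP_23b606_ag.TwistedDistribution
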